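import Pool.Agent.W679.ST.Stm

/-! More than a third of the ball lies in a half space at positive distance. -/

set_option autoImplicit false

open MeasureTheory Filter Topology
open scoped ENNReal

namespace Pool.Agent.W74.ST

open W679ST

theorem ST6 : S_ST6 := by
  intro m
  set B : Set (EuclideanSpace ℝ (Fin (m + 1))) := Metric.ball 0 1 with hB
  have hc : Continuous (fun y : EuclideanSpace ℝ (Fin (m + 1)) => y 0) := by fun_prop
  have hB0 : volume B ≠ 0 := (Metric.measure_ball_pos volume 0 one_pos).ne'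
  have hBt : volume B ≠ ∞ := measure_ball_lt_top.ne
  set Hp : Set (EuclideanSpace ℝ (Fin (m + 1))) := {y ∈ B | 0 < y 0} with hHp
  set Hm : Set (EuclideanSpace ℝ (Fin (m + 1))) := {y ∈ B | y 0 < 0} with hHm
  set S : ℕ → Set (EuclideanSpace ℝ (Fin (m + 1))) := fun k => {y ∈ B | 1 / ((k : ℝ) + 1) < y 0} with hS
  -- the hyperplane
  have h0 : volume {y : EuclideanSpace ℝ (Fin (m + 1)) | y 0 = 0} = 0 := by
    set f : EuclideanSpace ℝ (Fin (m + 1)) →ₗ[ℝ] ℝ := (EuclideanSpace.proj (0 : Fin (m + 1)) : EuclideanSpace ℝ (Fin (m + 1)) →L[ℝ] ℝ).toLinearMap with hf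
    have h1 := Measure.addHaar_submodule (volume : Measure (EuclideanSpace ℝ (Fin (m + 1)))) (LinearMap.ker f) (by
      intro h
      have h2 : f (EuclideanSpace.single 0 1) = 0 := by
        rw [← LinearMap.mem_ker, h]; trivial
      have h3 : f (EuclideanSpace.single 0 1) = 1 := by
        show (EuclideanSpace.single (0 : Fin (m + 1)) (1 : ℝ)) 0 = 1
        simp
      rw [h3] at h2
      exact one_ne_zero h2)
    have h2 : {y : EuclideanSpace ℝ (Fin (m + 1)) | y 0 = 0} = (LinearMap.ker f : Set (EuclideanSpace ℝ (Fin (m + 1)))) := by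
      ext y
      exact Iff.rfl
    rw [h2]
    exact h1
  -- symmetry
  have hneg : volume Hm = volume Hp := by
    have h1 : Hm = Neg.neg ⁻¹' Hp := by
      ext y
      simp only [hHm, hHp, hB, Set.mem_ofPred_eq, Set.mem_preimage, Metric.mem_ball,
        dist_zero_right, norm_neg]
      have : (-y) 0 = -(y 0) := rfl
      rw [this, neg_pos]
    rw [h1, Measure.measure_preimage_neg]
  have hle : volume B ≤ 2 * volume Hp := by
    have hsub : B ⊆ (Hp ∪ Hm) ∪ {y : EuclideanSpace ℝ (Fin (m + 1)) | y 0 = 0} := by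
      intro y hy
      rcases lt_trichotomy (y 0) 0 with h | h | h
      · exact Or.inl (Or.inr ⟨hy, h⟩)
      · exact Or.inr h
      · exact Or.inl (Or.inl ⟨hy, h⟩)
    calc volume B ≤ volume ((Hp ∪ Hm) ∪ {y : EuclideanSpace ℝ (Fin (m + 1)) | y 0 = 0}) := measure_mono hsub
      _ ≤ volume (Hp ∪ Hm) + volume {y : EuclideanSpace ℝ (Fin (m + 1)) | y 0 = 0} := measure_union_le _ _
      _ ≤ (volume Hp + volume Hm) + 0 := by
          rw [h0]
          exact add_le_add (measure_union_le _ _) le_rfl
      _ = 2 * volume Hp := by rw [hneg, add_zero, two_mul]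
  -- exhaustion
  have hmono : Monotone S := by
    intro k l hkl y hy
    refine ⟨hy.1, lt_of_le_of_lt ?_ hy.2⟩
    exact one_div_le_one_div_of_le (by positivity) (by
      have : (k : ℝ) ≤ l := by exact_mod_cast hkl
      linarith)
  have hUn : ⋃ k, S k = Hp := by
    ext y
    simp only [Set.mem_iUnion, hS, hHp, Set.mem_ofPred_eq]
    constructor
    · rintro ⟨k, h1, h2⟩
      exact ⟨h1, lt_trans (by positivity) h2⟩
    · rintro ⟨h1, h2⟩
      obtain ⟨k, hk⟩ := exists_nat_one_div_lt h2
      exact ⟨k, h1, hk⟩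
  have htend := tendsto_measure_iUnion_atTop (μ := (volume : Measure (EuclideanSpace ℝ (Fin (m + 1))))) hmono
  rw [hUn] at htend
  have hlt : volume B / 3 < volume Hp := by
    have h1 : volume B / 3 < volume B / 2 := by
      refine ENNReal.div_lt_div_left hB0 hBt ?_
      norm_num
    refine lt_of_lt_of_le h1 ?_
    exact ENNReal.div_le_of_le_mul' hle
  obtain ⟨k, hk⟩ := (htend.eventually (eventually_gt_nhds hlt)).exists
  refine ⟨1 / ((k : ℝ) + 1), by positivity, ?_⟩
  have h1 : volume B / 3 ≤ volume (S k) := hk.le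
  rw [ENNReal.div_le_iff_le_mul (Or.inl (by norm_num)) (Or.inl (by norm_num)), mul_comm] at h1
  exact h1

end Pool.Agent.W74.ST
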